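import Pool.Agent.V1137.UnavD

/-!
Solutions `x` of `φ(n - x) + 1 = n - x`, `φ(n + x) + 1 = n + x` for which the prime `n - x` belongs to a
given set of primes that meets all short clusters of primes.
-/

set_option autoImplicit false

open Finset Filter Topology

namespace Pool.Agent.Results.MP_967f73_nt.ClusterMeetingSets

/-- `P` meets all short clusters of primes: there are `M` and `ε > 0` such that, for all large `u`,
every interval `[u, v]` with `v ≤ u + ε log u` which contains at least `M` primes contains a prime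
which belongs to `P`. -/
def MeetsClusters (P : Set ℕ) : Prop := ∃ (M : ℕ) (ε : ℝ), 0 < ε ∧ ∃ u₀ : ℕ, ∀ u v : ℕ, u₀ ≤ u →
  (v : ℝ) ≤ u + ε * Real.log u → M ≤ ((Icc u v).filter Nat.Prime).card →
  ∃ p ∈ P, u ≤ p ∧ p ≤ v ∧ p.Prime

/-- `x` solves the system for `n`. -/
def Solves (n : ℕ) (x : ℤ) : Prop :=
  ((Nat.totient (n - x).toNat + 1 : ℕ) : ℤ) = n - x ∧ ((Nat.totient (n + x).toNat + 1 : ℕ) : ℤ) = n + x

open Classical in
/-- The nonzero solutions `x`, `|x| < n`, of the system for which `n - x` belongs to `P`. -/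
noncomputable def solutions (P : Set ℕ) (n : ℕ) : Finset ℤ :=
  (Ioo (-(n : ℤ)) n).filter (fun x => x ≠ 0 ∧ Solves n x ∧ (n - x).toNat ∈ P)

open Classical in
/-- The `n`, `2 ≤ n ≤ y`, with fewer than `c * n ^ 2 / (φ(2 n) * (log (2 n)) ^ 2)` such solutions. -/
noncomputable def exceptions (P : Set ℕ) (c : ℝ) (y : ℕ) : Finset ℕ :=
  (Icc 2 y).filter (fun n =>
    ((solutions P n).card : ℝ) < c * ((n : ℝ) ^ 2 / (Nat.totient (2 * n) * Real.log (2 * n) ^ 2)))

lemma tot {m : ℕ} (hm : m.Prime) : ((Nat.totient m + 1 : ℕ) : ℤ) = m := by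
  have h1 := Nat.totient_prime hm
  have h2 := hm.two_le
  omega

lemma card_le (P : Set ℕ) (n : ℕ) :
    (Pool.Agent.V1137.UnavD.representations P (2 * n)).card ≤ (solutions P n).card := by
  classical
  apply card_le_card_of_injOn (fun p : ℕ => (n : ℤ) - p)
  · intro p hp
    unfold Pool.Agent.V1137.UnavD.representations at hp
    rw [mem_coe, mem_filter, mem_range] at hp
    obtain ⟨h1, h2, h3, h4, h5⟩ := hp
    have h6 := h2.two_le
    have h7 := h4.two_le
    unfold solutions
    show ((n : ℤ) - p) ∈ ((_ : Finset ℤ) : Set ℤ)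
    rw [mem_coe, mem_filter, mem_Ioo]
    unfold Solves
    have e1 : ((n : ℤ) - ((n : ℤ) - p)).toNat = p := by omega
    have e2 : ((n : ℤ) + ((n : ℤ) - p)).toNat = 2 * n - p := by omega
    rw [e1, e2, tot h2, tot h4]
    refine ⟨⟨by omega, by omega⟩, by omega, ⟨by omega, by omega⟩, h3⟩
  · intro p _ q _ h
    simp only at h
    omega

/-- **The binary Goldbach conjecture in totient form with one prime in a set of primes which meets all
short clusters.** Let `P` be a set which, for some `M` and `ε > 0`, contains a prime from every interval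
`[u, v]`, `v ≤ u + ε log u`, `u` large, with at least `M` primes. For every `κ > 0` there is `c > 0` such
that for all large `y` all `n` in `[2, y]`, with at most `κ y` exceptions, have at least
`c n ^ 2 / (φ(2 n) (log (2 n)) ^ 2)` nonzero solutions `x`, `|x| < n`, of the system with `n - x` in `P`. -/
theorem result (P : Set ℕ) (hP : MeetsClusters P) (κ : ℝ) (hκ : 0 < κ) : ∃ c : ℝ, 0 < c ∧
    ∀ᶠ y : ℕ in atTop, ((exceptions P c y).card : ℝ) ≤ κ * y := by
  classical
  obtain ⟨c, hc, h⟩ := Pool.Agent.V1137.UnavD.main P hP (κ / 2) (by positivity)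
  refine ⟨4 * c, by positivity, ?_⟩
  have h2 : Tendsto (fun y : ℕ => 2 * y) atTop atTop :=
    tendsto_atTop_mono (fun y => by show y ≤ 2 * y; omega) tendsto_id
  filter_upwards [h2.eventually h] with y hy
  have h3 : (exceptions P (4 * c) y).card ≤ (Pool.Agent.V1137.UnavD.exceptions P c (2 * y)).card := by
    apply card_le_card_of_injOn (fun n => 2 * n)
    · intro n hn
      unfold exceptions at hn
      rw [mem_coe, mem_filter, mem_Icc] at hn
      obtain ⟨⟨h4, h5⟩, h6⟩ := hn
      unfold Pool.Agent.V1137.UnavD.exceptions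
      show 2 * n ∈ ((_ : Finset ℕ) : Set ℕ)
      rw [mem_coe, mem_filter, mem_Icc]
      refine ⟨⟨by omega, by omega⟩, even_two_mul n, ?_⟩
      have h7 : ((Pool.Agent.V1137.UnavD.representations P (2 * n)).card : ℝ) ≤ (solutions P n).card := by
        exact_mod_cast card_le P n
      refine lt_of_le_of_lt h7 (lt_of_lt_of_le h6 (le_of_eq ?_))
      push_cast
      ring
    · intro m _ n _ hmn
      simp only at hmn
      omega
  calc ((exceptions P (4 * c) y).card : ℝ) ≤ (Pool.Agent.V1137.UnavD.exceptions P c (2 * y)).card := by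
        exact_mod_cast h3
    _ ≤ κ / 2 * ((2 * y : ℕ) : ℝ) := hy
    _ = κ * y := by push_cast; ring

end Pool.Agent.Results.MP_967f73_nt.ClusterMeetingSets
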