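import Pool.Agent.V11290.FD.Win

/-!
# The number of solutions of Goldbach's problem in windows, for all `n` near `t α + s`

Let `μ` be ANY probability measure on a compact subset of `(0, ∞)` whose Fourier transform decays like some power, with
an arbitrarily small exponent `σ > 0`. (Such measures live on many sets of Lebesgue measure zero and of arbitrarily small
dimension: on the badly approximable numbers with bounded partial quotients (Kaufman), on the sets of `τ`-well
approximable numbers (Kaufman), on limit sets of convex cocompact Fuchsian groups (Bourgain, Dyatlov), on random Salem sets.)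
Let `t j ≥ 2`, `j ∈ J`, be numbers for which `∑ 1 / log ^ V (t j)` converges for some `V` (for instance `t j = 2 ^ j`), and
let `0 ≤ s j ≤ B t j` be arbitrary. Then for `μ`-almost every `α`, for every `A`, `W` and `ε > 0` and for all but finitely
many `j`: for ALL integers `n ≥ 2` at a distance of at most `log ^ A (t j)` from `t j α + s j` the system
`φ(n - x) + 1 = n - x`, `φ(n + x) + 1 = n + x` has the predicted number of solutions `x` in EVERY window `(x₁, x₂]`
of a length of at least `n / log ^ W n`, up to a relative error of `ε`. In other words: the set of the `α` for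
which this fails has Fourier dimension `0`.

Proof: the law of a random rounding of `t α` has a small characteristic function away from the integers (a Fourier
series with the coefficients `sinc²`), the theorem of the library TH872.An3 on windows of Goldbach pairs for random
integers with a small characteristic function (starting files) is applied to it, and then the lemma of Borel and Cantelli.

Definitions used from `Pool.Agent.H560R3.GB` (starting files): `C₂`: the twin prime constant
`∏_{p > 2} (1 - 1 / (p - 1) ^ 2)`; `sing m`: the singular series `2 C₂ ∏_{p ∣ m, p > 2} (p - 1) / (p - 2)`.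
-/

set_option autoImplicit false

namespace Pool.Agent.Results.MP_967f73_nt.FourierDecayWindows

open MeasureTheory Finset Pool.Agent.H560R3.GB

/-- The number of the integers `x₁ < x ≤ x₂` with `x < n`, `φ(n - x) + 1 = n - x` and `φ(n + x) + 1 = n + x`. -/
def solutions (n x₁ x₂ : ℕ) : ℕ :=
  ((Ioc x₁ x₂).filter (fun x => x < n ∧ Nat.totient (n - x) + 1 = n - x ∧ Nat.totient (n + x) + 1 = n + x)).card

/-- In every window `(x₁, x₂]`, `0 ≤ x₁ < x₂ ≤ n`, of a length of at least `n / log ^ W n` the number of solutions is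
`sing (2 n) (x₂ - x₁) / log ^ 2 (2 n)`, up to a relative error of at most `ε`. -/
def Holds (ε : ℝ) (W n : ℕ) : Prop :=
  ∀ x₁ x₂ : ℕ, x₁ < x₂ → x₂ ≤ n → (n : ℝ) / Real.log n ^ W ≤ (x₂ : ℝ) - x₁ →
    |(solutions n x₁ x₂ : ℝ) - sing (2 * n) * ((x₂ : ℝ) - x₁) / Real.log (2 * n) ^ 2| ≤
      ε * (sing (2 * n) * ((x₂ : ℝ) - x₁) / Real.log (2 * n) ^ 2)

lemma tot_iff (m : ℕ) (hm : 0 < m) : Nat.totient m + 1 = m ↔ m.Prime := by
  rw [← Nat.totient_eq_iff_prime hm]
  omega

lemma sol_eq (n x₁ x₂ : ℕ) (h2 : x₂ ≤ n) :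
    solutions n x₁ x₂ = Pool.Agent.W93.PG.cnt (2 * n) (n + x₁) (n + x₂) := by
  unfold solutions Pool.Agent.W93.PG.cnt
  apply card_bij (fun x _ => n + x)
  · intro x hx
    rw [mem_filter, mem_Ioc] at hx
    rw [mem_filter, mem_Ioc]
    obtain ⟨⟨h3, h4⟩, h5, h6, h7⟩ := hx
    rw [tot_iff _ (by omega)] at h6 h7
    refine ⟨⟨by omega, by omega⟩, h7, ?_⟩
    have : 2 * n - (n + x) = n - x := by omega
    rw [this]
    exact h6
  · intro x _ y _ h
    omega
  · intro p hp
    rw [mem_filter, mem_Ioc] at hp
    obtain ⟨⟨h3, h4⟩, h5, h6⟩ := hp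
    have h7 := h6.pos
    refine ⟨p - n, ?_, by omega⟩
    rw [mem_filter, mem_Ioc]
    have e1 : n - (p - n) = 2 * n - p := by omega
    have e2 : n + (p - n) = p := by omega
    rw [e1, e2, tot_iff _ h7, tot_iff _ h5.pos]
    exact ⟨⟨by omega, by omega⟩, by omega, h6, h5⟩

/-- Let `μ` be a probability measure on an interval `[a, B]`, `a > 0`, with `|μ^(ξ)| ≤ C |ξ| ^ (-σ)` for `|ξ| ≥ 1` and
some `C` and `σ > 0`. Let `t j ≥ 2` and `0 ≤ s j ≤ B t j` be real numbers, where `j` ranges over a set `J`, such that the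
sum of the `1 / log ^ V (t j)` converges for some `V`. Then for `μ`-almost every `α`, for all `A` and `W` and every `ε > 0`,
for all but finitely many `j`, ALL the integers `n ≥ 2` with `|n - (t j α + s j)| ≤ log ^ A (t j)` satisfy `Holds ε W n`: the
number of the solutions `x` of the system `φ(n - x) + 1 = n - x`, `φ(n + x) + 1 = n + x` in every window `(x₁, x₂]`,
`0 ≤ x₁ < x₂ ≤ n`, of a length of at least `n / log ^ W n` is as predicted, up to a relative error of at most `ε`. -/
theorem result (μ : Measure ℝ) [IsProbabilityMeasure μ] (a B : ℝ) (ha : 0 < a) (hμ : ∀ᵐ α ∂μ, a ≤ α ∧ α ≤ B)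
    (C σ : ℝ) (hσ : 0 < σ) (hdec : ∀ ξ : ℝ, 1 ≤ |ξ| → ‖charFun μ ξ‖ ≤ C * |ξ| ^ (-σ))
    (J : Type) (t s : J → ℝ) (ht : ∀ j, 2 ≤ t j) (hs : ∀ j, 0 ≤ s j ∧ s j ≤ B * t j)
    (hsum : ∃ V : ℕ, Summable fun j => 1 / Real.log (t j) ^ V) :
    ∀ᵐ α ∂μ, ∀ (A W : ℕ) (ε : ℝ), 0 < ε →
      {j | ¬ ∀ n : ℕ, 2 ≤ n → |(n : ℝ) - (t j * α + s j)| ≤ Real.log (t j) ^ A → Holds ε W n}.Finite := by
  obtain ⟨V, hV⟩ := hsum
  have hV2 : Summable fun j => 1 / Real.log (2 * t j) ^ V := by
    refine Summable.of_nonneg_of_le (fun j => ?_) (fun j => ?_) hV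
    · have : 0 ≤ Real.log (2 * t j) := Real.log_nonneg (by linarith [ht j])
      positivity
    · have h1 : 0 < Real.log (t j) := Real.log_pos (by linarith [ht j])
      have h2 : Real.log (t j) ≤ Real.log (2 * t j) := Real.log_le_log (by linarith [ht j]) (by linarith [ht j])
      exact one_div_le_one_div_of_le (by positivity) (pow_le_pow_left₀ h1.le h2 V)
  have h := Pool.Agent.V11290.FD.win_ae a B C σ ha hσ μ hdec hμ (fun j => 2 * t j) (fun j => 2 * s j)
    (fun j => by linarith [ht j]) V hV2 (fun j => ⟨by linarith [(hs j).1], by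
      have := (hs j).2
      linarith⟩)
  filter_upwards [h, hμ] with α hα hαa A W ε hε
  obtain ⟨t₀, ht₀⟩ := Pool.Agent.V11290.FD.log_pow_le A (a / 2) (by positivity)
  have hsmall := Pool.Agent.V11290.FD.small_fin t ht V hV (max (max t₀ (Real.exp 2)) (8 / a))
  refine ((hα (A + 1) (W + 1) ε hε).union hsmall).subset ?_
  intro j hj
  rcases lt_or_ge (t j) (max (max t₀ (Real.exp 2)) (8 / a)) with hlt | hge0
  · right
    exact hlt
  have hge1 : t₀ ≤ t j := ((le_max_left _ _).trans (le_max_left _ _)).trans hge0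
  have hge : Real.exp 2 ≤ t j := ((le_max_right _ _).trans (le_max_left _ _)).trans hge0
  have hge2 : 8 / a ≤ t j := (le_max_right _ _).trans hge0
  rw [div_le_iff₀ ha] at hge2
  left
  rw [Set.mem_ofPred_eq] at hj ⊢
  push Not at hj
  obtain ⟨n, hn0, hn3, hn4⟩ := hj
  have hlog : 2 ≤ Real.log (t j) := by
    rw [Real.le_log_iff_exp_le (by linarith [ht j])]
    exact hge
  refine ⟨2 * n, by omega, dvd_mul_right _ _, ?_, fun hc => hn4 ?_⟩
  · push_cast
    have e1 : (2 : ℝ) * n - (2 * t j * α + 2 * s j) = 2 * (n - (t j * α + s j)) := by ring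
    rw [e1, abs_mul, abs_of_pos (by norm_num : (0 : ℝ) < 2)]
    have e2 : Real.log (t j) ≤ Real.log (2 * t j) := Real.log_le_log (by linarith [ht j]) (by linarith [ht j])
    calc 2 * |(n : ℝ) - (t j * α + s j)| ≤ 2 * Real.log (t j) ^ A := by linarith
      _ ≤ Real.log (t j) * Real.log (t j) ^ A := mul_le_mul_of_nonneg_right hlog (by positivity)
      _ = Real.log (t j) ^ (A + 1) := by ring
      _ ≤ _ := pow_le_pow_left₀ (by linarith) e2 _
  · intro x₁ x₂ h12 hx2 hlen
    have hn2 : (2 : ℝ) ≤ n := by exact_mod_cast hn0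
    have hx12 : (x₁ : ℝ) < x₂ := by exact_mod_cast h12
    have hln : 0 < Real.log n := Real.log_pos (by linarith)
    have hl2 : Real.log n ≤ Real.log (2 * n) := Real.log_le_log (by linarith) (by linarith)
    have hl3 : Real.log (2 * n) ≤ 2 * Real.log n := by
      rw [Real.log_mul (by norm_num) (by linarith)]
      have : Real.log 2 ≤ Real.log n := Real.log_le_log (by norm_num) hn2
      linarith
    have hc1 := hc (n + x₁) (n + x₂) (by omega) (by omega) (by
      push_cast
      have e1 : (n : ℝ) + x₂ - (n + x₁) = x₂ - x₁ := by ring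
      rw [e1]
      rcases le_or_gt 2 (Real.log (2 * n)) with h5 | h5
      · refine le_trans ?_ hlen
        rw [div_le_div_iff₀ (by positivity) (by positivity)]
        have e3 : Real.log n ^ W ≤ Real.log (2 * n) ^ W := pow_le_pow_left₀ hln.le hl2 W
        calc (2 : ℝ) * n * Real.log n ^ W ≤ 2 * n * Real.log (2 * n) ^ W := mul_le_mul_of_nonneg_left e3 (by positivity)
          _ = n * (2 * Real.log (2 * n) ^ W) := by ring
          _ ≤ n * (Real.log (2 * n) * Real.log (2 * n) ^ W) := by
              apply mul_le_mul_of_nonneg_left _ (by positivity)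
              exact mul_le_mul_of_nonneg_right h5 (by positivity)
          _ = n * Real.log (2 * n) ^ (W + 1) := by ring
      · exfalso
        have h6 := (abs_le.1 hn3).1
        have h7 := ht₀ (t j) hge1
        have h8 : a * t j ≤ t j * α := by
          rw [mul_comm]
          exact mul_le_mul_of_nonneg_left hαa.1 (by linarith [ht j])
        have h9 : (4 : ℝ) ≤ n := by linarith [(hs j).1]
        have h10 : Real.exp 2 ≤ 2 * n := by
          have h11 : Real.exp 2 = Real.exp 1 * Real.exp 1 := by rw [← Real.exp_add]; norm_num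
          have h12 := Real.exp_one_lt_d9
          have h13 := Real.exp_pos 1
          rw [h11]
          nlinarith
        have h11 : 2 ≤ Real.log (2 * n) := by
          rw [Real.le_log_iff_exp_le (by linarith)]
          exact h10
        linarith)
    rw [sol_eq n x₁ x₂ hx2]
    push_cast at hc1
    have e1 : (n : ℝ) + x₂ - (n + x₁) = x₂ - x₁ := by ring
    rw [e1] at hc1
    exact hc1

end Pool.Agent.Results.MP_967f73_nt.FourierDecayWindows
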