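import Pool.Agent.Y879.GL.Prog2

set_option autoImplicit false

/-!
# Almost prime Goldbach pairs in short intervals and progressions: the laws of the gaps

A solution of Goldbach's equation for the even number `f` is a number `n` such that `n` and `f - n`
are prime. Call `m` good if `n = a + q m` and `e n + f` (with `e = -1` for Goldbach's equation) have no
prime factor up to `X ^ (1 / r)`. In EVERY interval `(Z, Z + Y]` with `Y ≥ X ^ θ` the distances of the
good integers to the `l`-th good integer before them are distributed as in a Poisson process of the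
density `V = ∏ (1 - ν(p) / p)`, up to a relative error `ε`, which tends to `0` as `r` grows. This is
uniform for all even `f ≠ 0`, all moduli `q` and all classes `a` up to any fixed power of `X`.

This is the final theorem `Pool.Agent.Y879.GL.prog2_gap` of the starting library; none of the
starting hand-ins states it.
-/

namespace Pool.Agent.Results.MP_967f73_nt.GapLaws

open Finset Filter

/-- The numbers `n = a + q m` and `e n + f` have no prime factor up to `X ^ (1 / r)`. -/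
def Good (e f : ℤ) (q a r X m : ℕ) : Prop :=
  ∀ p : ℕ, p.Prime → (p : ℝ) ≤ (X : ℝ) ^ (1 / (r : ℝ)) →
    ¬ p ∣ a + q * m ∧ ¬ (p : ℤ) ∣ e * (a + q * m) + f

open Classical in
/-- The number of the good `n` in `(Z, Z + Y]` with fewer than `l` good integers in `[n - T, n)`. -/
noncomputable def G (e f : ℤ) (q a r X l T Z Y : ℕ) : ℕ :=
  ((Finset.Ioc Z (Z + Y)).filter (fun n => Good e f q a r X n ∧
    ((Finset.Ico (n - T) n).filter (fun m => Good e f q a r X m)).card < l)).card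

open Classical in
/-- The sieve density: the product, over the primes `p ≤ X ^ (1 / r)` not dividing `q`, of `1 - 1 / p`
if `p` divides `f` and of `1 - 2 / p` otherwise. -/
noncomputable def V (f : ℤ) (q r X : ℕ) : ℝ :=
  ∏ p ∈ (Finset.range (⌊(X : ℝ) ^ (1 / (r : ℝ))⌋₊ + 1)).filter (fun p => p.Prime ∧ ¬ p ∣ q),
    (1 - (if (p : ℤ) ∣ f then 1 else 2) / (p : ℝ))

open Pool.Agent.TH464.PO Pool.Agent.W123.RU.Poly Pool.Agent.W123.RP Pool.Agent.H373R2.T7
open Pool.Agent.Y879.AP Pool.Agent.Y879.GL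

lemma good_iff (e f : ℤ) (q a r X m : ℕ) :
    Sf (Q (pf e f q a)) ⌊(X : ℝ) ^ (1 / (r : ℝ))⌋₊ m ↔ Good e f q a r X m := by
  have h0 : (0 : ℝ) ≤ (X : ℝ) ^ (1 / (r : ℝ)) := by positivity
  have key : ∀ p : ℕ, p.Prime → (Q (pf e f q a) p m ↔
      (p ∣ a + q * m ∨ (p : ℤ) ∣ e * (a + q * m) + f)) := by
    intro p hp
    have hpi : Prime (p : ℤ) := Nat.prime_iff_prime_int.1 hp
    rw [pf_Q e f q a p m hp]
    unfold Q2
    rw [hpi.dvd_mul]
    apply or_congr
    · rw [Int.natCast_dvd_natCast, add_comm]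
    · push_cast
      rw [add_comm (q * m : ℤ) a]
  constructor
  · intro h p hp hpX
    have h1 := h p (mem_pz.2 ⟨Nat.le_floor hpX, hp⟩)
    rw [key p hp, not_or] at h1
    exact h1
  · intro h p hp
    obtain ⟨h1, h2⟩ := mem_pz.1 hp
    rw [key p h2, not_or]
    exact h p h2 ((Nat.le_floor_iff h0).1 h1)

open Classical in
lemma V_eq (e f : ℤ) (he : e * e = 1) (q r X : ℕ) :
    Vq (Qn (Q2 e f) q) ⌊(X : ℝ) ^ (1 / (r : ℝ))⌋₊ = V f q r X := by
  unfold Vq V
  set y := ⌊(X : ℝ) ^ (1 / (r : ℝ))⌋₊ with hy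
  have h1 : pz y = (Finset.range (y + 1)).filter Nat.Prime := by
    unfold pz
    ext p
    simp only [mem_filter, mem_Icc, mem_range]
    constructor
    · rintro ⟨h1, h2⟩
      exact ⟨by omega, h2⟩
    · rintro ⟨h1, h2⟩
      exact ⟨⟨h2.one_lt.le, by omega⟩, h2⟩
  rw [h1, ← Finset.filter_filter]
  rw [Finset.prod_filter (fun p => ¬ p ∣ q)]
  apply Finset.prod_congr rfl
  intro p hp
  have hpp : p.Prime := (mem_filter.1 hp).2
  by_cases h : p ∣ q
  · rw [if_neg (not_not.2 h), nuB_Qn_dvd _ _ _ h]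
    simp
  · rw [if_pos h, nuB_Qn_not _ _ _ h, nuB_Q2 e f he p hpp]
    unfold nu2
    split_ifs <;> norm_num

open Classical in
/-- **The gap laws for almost prime pairs `n`, `e n + f`, `e = ± 1`, in progressions.** For all
`A, δ, θ > 0`, `l0`, `x0` and `ε > 0` there is `r0` such that for all `r ≥ r0` and all large `X` the
following holds for `e = ± 1`, all even `f ≠ 0` with `|f| ≤ X ^ A`, all `q, a ≤ X ^ A`, `q ≥ 1`, with
`a` and `e a + f` prime to `q`, such that `f` is not `± q t` with `1 ≤ t ≤ X ^ δ`, for all `Z`, all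
`Y ≥ X ^ θ` and all `l`, `T` with `l ≤ l0` or `T V ≤ x0`: the number of the good `m` in `(Z, Z + Y]`
with fewer than `l` good integers among the `T` integers before `m` is
`Y V ∑_{j < l} e ^ (-T V) (T V) ^ j / j!` up to at most `ε Y V`. -/
theorem result (A δ θ : ℝ) (hA : 0 < A) (hδ : 0 < δ) (hθ : 0 < θ) (l0 : ℕ) (x0 ε : ℝ)
    (hε : 0 < ε) :
    ∃ r0 : ℕ, ∀ r : ℕ, r0 ≤ r → ∀ᶠ X : ℕ in atTop, ∀ (e f : ℤ) (q a : ℕ), (e = 1 ∨ e = -1) →
      Even f → f ≠ 0 → |(f : ℝ)| ≤ (X : ℝ) ^ A → 1 ≤ q → (q : ℝ) ≤ (X : ℝ) ^ A →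
      (a : ℝ) ≤ (X : ℝ) ^ A → Nat.Coprime q a → IsCoprime (q : ℤ) (e * a + f) →
      (∀ t : ℕ, 1 ≤ t → (t : ℝ) ≤ (X : ℝ) ^ δ → f ≠ (q : ℤ) * t ∧ f ≠ -((q : ℤ) * t)) →
      ∀ Z Y : ℕ, (X : ℝ) ^ θ ≤ Y → ∀ l T : ℕ, (l ≤ l0 ∨ T * V f q r X ≤ x0) →
        |(G e f q a r X l T Z Y : ℝ) - Y * V f q r X *
          ∑ j ∈ Finset.range l, Real.exp (-(T * V f q r X)) * (T * V f q r X) ^ j / j.factorial| ≤
        ε * (Y * V f q r X) := by
  obtain ⟨r0, h0⟩ := prog2_gap A δ θ hA hδ hθ l0 x0 ε hε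
  refine ⟨r0, ?_⟩
  intro r hr
  filter_upwards [h0 r hr] with X hX
  intro e f q a he hf hf0 hfX hq hqX haX hqa hqf ht Z Y hY l T hlT
  have he1 : e * e = 1 := by rcases he with rfl | rfl <;> norm_num
  have h := hX e f q a he1 hf hf0 hfX hq hqX haX hqa hqf
    (fun t ht1 htX heq => by
      obtain ⟨h1, h2⟩ := ht t ht1 htX
      rcases sq_eq_sq_iff_eq_or_eq_neg.1 heq with h3 | h3
      · exact h1 h3
      · exact h2 h3) Z Y hY l T (by rw [V_eq e f he1]; exact hlT)
  rw [V_eq e f he1] at h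
  have hG : Pk (Sf (Q (pf e f q a)) ⌊(X : ℝ) ^ (1 / (r : ℝ))⌋₊) l T Z Y =
      G e f q a r X l T Z Y := by
    unfold Pk G
    simp only [good_iff]
  rw [hG] at h
  exact h

end Pool.Agent.Results.MP_967f73_nt.GapLaws
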