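import Mathlib
import Pool.Agent.V11161.GV.MainTwo
import Pool.Agent.V11161.GV.Conv

set_option autoImplicit false

/-!
# MP_967f73_nt: Goldbach numbers, or almost all prime pairs (a third of the prime triples, …)

For all `k` and `ε > 0` there are `z`, `n₀`, `C` and `δ > 0` such that for every large `N` and all
sets `V` of natural numbers `≤ N` and `W` of natural numbers in `[13 N / 24, N]`, of the same size
`≥ n₀`, for which the system `n + v`, `w - n` has no local obstruction at the primes `p ≤ z`, at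
least one of the following holds.

* (Goldbach) for at least `δ |V| |W|` pairs `(v, w)` the number `v + w` is a sum of two primes in at
  least `N / (log N) ^ C` ways;
* at least `(d - ε) |V| ^ (k + 1)` tuples `(t₀, …, t_k)` of distinct elements of `V` are such that
  `n + t₀, …, n + t_k` are all prime for at least `N / (log N) ^ C` numbers `n ≤ N`;
* at least `(d - ε) |W| ^ (k + 1)` tuples `(t₀, …, t_k)` of distinct elements of `W` are such that
  `t₀ - n, …, t_k - n` are all prime for at least `N / (log N) ^ C` numbers `n ≤ N`.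

Here `d = 1` for pairs (`k = 1`), `d = 1 / 3` for triples (`k = 2`) and `d = (5 / 9) ^ k` otherwise.
-/

namespace Pool.Agent.Results.MP_967f73_nt.GoldbachOrTuples

open Filter

/-- the proportion: `1` for pairs, `1 / 3` for triples, `(5 / 9) ^ k` for `(k + 1)`-tuples -/
noncomputable def proportion (k : ℕ) : ℝ := if k = 1 then 1 else if k = 2 then 1 / 3 else (5 / 9) ^ k

open Pool.Agent.V11161.GV in
theorem result (k : ℕ) (ε : ℝ) (hε : 0 < ε) : ∃ z n₀ C : ℕ, ∃ δ : ℝ, 0 < δ ∧
    ∀ᶠ N : ℕ in atTop, ∀ V W : Finset ℕ, V.card = W.card → n₀ ≤ V.card → (∀ v ∈ V, v ≤ N) →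
      (∀ w ∈ W, 13 * N ≤ 24 * w ∧ w ≤ N) →
      (∀ p : ℕ, p.Prime → p ≤ z → ∃ n : ℤ, (∀ v ∈ V, ¬ ((p : ℤ) ∣ n + v)) ∧
        ∀ w ∈ W, ¬ ((p : ℤ) ∣ w - n)) →
      δ * (V.card : ℝ) * W.card ≤ ({x : ℕ × ℕ | x.1 ∈ V ∧ x.2 ∈ W ∧ (N : ℝ) / (Real.log N) ^ C ≤
        ({p : ℕ | p.Prime ∧ ∃ q : ℕ, q.Prime ∧ p + q = x.1 + x.2}.ncard : ℝ)}.ncard : ℝ) ∨
      (proportion k - ε) * (V.card : ℝ) ^ (k + 1) ≤
        ({t : Fin (k + 1) → ℕ | (∀ i, t i ∈ V) ∧ Function.Injective t ∧
          (N : ℝ) / (Real.log N) ^ C ≤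
            ({n : ℕ | n ≤ N ∧ ∀ i, (n + t i).Prime}.ncard : ℝ)}.ncard : ℝ) ∨
      (proportion k - ε) * (W.card : ℝ) ^ (k + 1) ≤
        ({t : Fin (k + 1) → ℕ | (∀ i, t i ∈ W) ∧ Function.Injective t ∧
          (N : ℝ) / (Real.log N) ^ C ≤
            ({n : ℕ | n ≤ N ∧ ∀ i, (t i - n).Prime}.ncard : ℝ)}.ncard : ℝ) := by
  classical
  have hd : proportion k = dg k := rfl
  rw [hd]
  obtain ⟨z, n₀, C, δ, hδ, h⟩ := main_two k (dg k) (dg_le k) (hcount k) ε hε
  refine ⟨z, n₀, C, δ, hδ, ?_⟩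
  filter_upwards [h 1] with N hN
  intro V W hc hn hV hW hloc
  have hcV : (V.image lf).card = V.card := Finset.card_image_of_injective _ lf_inj
  have hcW : (W.image rf).card = W.card := Finset.card_image_of_injective _ rf_inj
  have key := hN (V.image lf) (W.image rf) (by rw [hcV, hcW, hc]) (by rw [hcV]; exact hn) (by
      rw [Finset.disjoint_left]
      intro a ha hb
      obtain ⟨v, -, rfl⟩ := Finset.mem_image.1 ha
      obtain ⟨w, -, hw⟩ := Finset.mem_image.1 hb
      have h1 : (-1 : ℤ) = 1 := congrArg Prod.fst hw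
      norm_num at h1) (by
      intro f hf
      obtain ⟨v, hv, rfl⟩ := Finset.mem_image.1 hf
      exact adf_lf (hV v hv)) (by
      intro f hf
      obtain ⟨w, hw, rfl⟩ := Finset.mem_image.1 hf
      exact adf_rf (hW w hw).1 (hW w hw).2) (by
      intro p hp hpz
      obtain ⟨t, ht1, ht2⟩ := hloc p hp hpz
      refine ⟨t, fun f hf => ?_, fun f hf => ?_⟩
      · obtain ⟨v, hv, rfl⟩ := Finset.mem_image.1 hf
        have e : (lf v).1 * t + (lf v).2 = t + v := by
          show (1 : ℤ) * t + v = t + v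
          ring
        rw [e]
        exact ht1 v hv
      · obtain ⟨w, hw, rfl⟩ := Finset.mem_image.1 hf
        have e : (rf w).1 * t + (rf w).2 = w - t := by
          show (-1 : ℤ) * t + w = w - t
          ring
        rw [e]
        exact ht2 w hw)
  rw [hcV, hcW] at key
  rcases key with h2 | h2 | h2
  · left
    rw [sq, ← mul_assoc] at h2
    rw [← hc]
    exact h2.trans (conv_pair lf rf V W ((N : ℝ) / (Real.log N) ^ C) N
      (fun a b => {p : ℕ | p.Prime ∧ ∃ q : ℕ, q.Prime ∧ p + q = a + b}.ncard)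
      fun v _ w _ => cnt_lr v w N)
  · right; left
    refine (h2.trans (conv_tup lf V ((N : ℝ) / (Real.log N) ^ C) N)).trans (le_of_eq ?_)
    have e : ∀ (n v : ℕ), ((lf v).1 * (n : ℤ) + (lf v).2).toNat = n + v := by
      intro n v
      show (1 * (n : ℤ) + (v : ℤ)).toNat = n + v
      omega
    simp only [e]
  · right; right
    refine (h2.trans (conv_tup rf W ((N : ℝ) / (Real.log N) ^ C) N)).trans (le_of_eq ?_)
    have e : ∀ (n v : ℕ), ((rf v).1 * (n : ℤ) + (rf v).2).toNat = v - n := by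
      intro n v
      show (-1 * (n : ℤ) + (v : ℤ)).toNat = v - n
      omega
    simp only [e]

end Pool.Agent.Results.MP_967f73_nt.GoldbachOrTuples
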